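import Mathlib
import Pool.Agent.W755.GlO

/-!
# Weights for the weighted `g_λ^*` inequality

Complete answer to Q1: for `1 < p < 2` and `λ > 0` (in particular for `1 < λ ≤ 2`, `2/λ < p < 2`) and
every weight `U`, the inequality `(∗)` holds if and only if `U ∈ A_p ∩ B_{λp/2}`.

Necessity: test on `f ≥ 0` supported in an interval `I`; there `g_λ^*(f)(x)` is at least a constant
times `(1/|I| ∫_I f) (|I|/(|I|+|x-x_I|))^{λ/2}` for all `x`. With `f = 1_I` this is `B_{λp/2}`, with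
`f = min(k, U^{-1/(p-1)}) 1_I` it is `A_p`.

Sufficiency.
1. `B_r` improves itself: if `U ∈ B_r` then `U ∈ B_q` for some `q < r`. So `U(aI) ≤ C a^q U(I)` with
   `q < λp/2`.
2. Change of aperture: for `p < 2`, `∫ S_a^p U ≤ C a^q ∫ S_1^p U`, where `S_a` is the area function of
   aperture `a`; summing over `a = 2^j` gives `∫ (g_λ^*)^p U ≤ C ∫ S_1^p U`.
3. `∫ S_1^p U ≤ C ∫ |f|^p U` for `U ∈ A_p`: by the majorant of Rubio de Francia it is enough to treat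
   `p = 2` and `A_2` weights `w`; there one uses that
   `X - u²/(2V - 1/(V W²))` is superharmonic, where `X, u, V, W` are the Poisson integrals of
   `f² w`, `f`, `1/w`, `w`.
-/

set_option autoImplicit false

namespace Pool.Agent.Results.MP_842e08_an.Characterization

open MeasureTheory Set
open scoped ENNReal NNReal

/-- the Poisson integral `f(z,y) = (1/π) ∫ y f(z-x) / (x² + y²) dx` -/
noncomputable def pois (f : ℝ → ℝ) (z y : ℝ) : ℝ :=
  (1 / Real.pi) * ∫ x, y * f (z - x) / (x ^ 2 + y ^ 2)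

/-- `|∇f(z,y)|²`, the squared length of the gradient in `(z,y)` of the Poisson integral -/
noncomputable def gradSq (f : ℝ → ℝ) (z y : ℝ) : ℝ :=
  deriv (fun s => pois f s y) z ^ 2 + deriv (fun s => pois f z s) y ^ 2

/-- `g_λ^*(x) = [∫ ∫_0^∞ (y/(|x-z|+y))^λ |∇f(z,y)|² dy dz]^{1/2}`, with values in `[0,∞]` -/
noncomputable def gstar (lam : ℝ) (f : ℝ → ℝ) (x : ℝ) : ℝ≥0∞ :=
  (∫⁻ z, ∫⁻ y in Ioi (0:ℝ), ENNReal.ofReal ((y / (|x - z| + y)) ^ lam * gradSq f z y)) ^ (1 / 2 : ℝ)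

/-- the weighted inequality `(∗)`: there is `C` with `∫ g_λ^*(x)^p U(x) dx ≤ C ∫ |f(x)|^p U(x) dx`
for all measurable `f` with finite right side -/
def Star (lam p : ℝ) (U : ℝ → ℝ) : Prop :=
  ∃ C : ℝ≥0, ∀ f : ℝ → ℝ, AEMeasurable f → ∫⁻ x, ENNReal.ofReal (|f x| ^ p * U x) < ⊤ →
    ∫⁻ x, gstar lam f x ^ p * ENNReal.ofReal (U x) ≤ C * ∫⁻ x, ENNReal.ofReal (|f x| ^ p * U x)

/-- the class `A_p`: `(1/|I| ∫_I U) (1/|I| ∫_I U^{-1/(p-1)})^{p-1} ≤ K` for all intervals `I`, with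
`0^{-1/(p-1)} = ∞` -/
def MemA (p : ℝ) (U : ℝ → ℝ) : Prop :=
  ∃ K : ℝ≥0, ∀ a b : ℝ, a < b →
    ((ENNReal.ofReal (b - a))⁻¹ * ∫⁻ x in Ioo a b, ENNReal.ofReal (U x)) *
      ((ENNReal.ofReal (b - a))⁻¹ *
        ∫⁻ x in Ioo a b, ENNReal.ofReal (U x) ^ (-(1 / (p - 1)))) ^ (p - 1) ≤ K

/-- the class `B_r`: `∫ |I|^{r-1} U(x) / (|I|^r + |x-x_I|^r) dx ≤ (C/|I|) ∫_I U` for all intervals `I`
with centre `x_I` -/
def MemB (r : ℝ) (U : ℝ → ℝ) : Prop :=
  ∃ C : ℝ≥0, ∀ a b : ℝ, a < b →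
    ∫⁻ x, ENNReal.ofReal ((b - a) ^ (r - 1) * U x / ((b - a) ^ r + |x - (a + b) / 2| ^ r)) ≤
      C * (ENNReal.ofReal (b - a))⁻¹ * ∫⁻ x in Ioo a b, ENNReal.ofReal (U x)

/-- Let `λ > 0`, `1 < p < 2` (this contains the range `1 < λ ≤ 2`, `2/λ < p < 2` of the question) and
let `U` be a weight (nonnegative, locally integrable). Then `(∗)` holds if and only if
`U ∈ A_p ∩ B_{λp/2}`. Moreover, if `U ∈ A_p` is not a.e. zero, the Poisson integral of every `f` with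
`∫ |f|^p U < ∞` converges absolutely at every point of the half plane. -/
theorem result (lam p : ℝ) (hlam : 0 < lam) (hp : 1 < p) (hp2 : p < 2) (U : ℝ → ℝ)
    (h0 : ∀ x, 0 ≤ U x) (hl : LocallyIntegrable U) :
    (Star lam p U ↔ MemA p U ∧ MemB (lam * p / 2) U) ∧
    (MemA p U → ¬ U =ᵐ[volume] 0 → ∀ f : ℝ → ℝ, AEMeasurable f →
      ∫⁻ x, ENNReal.ofReal (|f x| ^ p * U x) < ⊤ → ∀ z y : ℝ, 0 < y →
        Integrable (fun x => y * f (z - x) / (x ^ 2 + y ^ 2))) :=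
  Pool.Agent.W755.Gl.main hlam hp hp2 h0 hl

end Pool.Agent.Results.MP_842e08_an.Characterization
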